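import Mathlib
import Pool.Agent.W926.PS.Base

/-!
Partial shattering, general number of points: definitions and basic lemmas
(the lemmas of `Pool.Agent.W926.PS.Base`, with `m` points in place of six).
-/

set_option autoImplicit false

namespace R175.PSG

open Finset
open W926.PS (Om Pos Lab lab nrk Before FD PosKey LabKey Blk Crs Coll st0 st1 st2)

/-- the pattern induced by a key on `m` points -/
def ipat {β : Type} {m : ℕ} (x : Fin m → β) (key : β → ℕ) : Fin m → Fin m → Bool :=
  fun i k => decide (key (x i) < key (x k))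

/-- the number of patterns on `m` points -/
def np {β : Type} {m : ℕ} (F : Finset (β → ℕ)) (x : Fin m → β) : ℕ :=
  (F.image (ipat x)).card

open Classical in
/-- the number of patterns on `m` points induced by the keys in `F` with property `A` -/
noncomputable def nq {β : Type} {m : ℕ} (F : Finset (β → ℕ)) (A : (β → ℕ) → Prop)
    (x : Fin m → β) : ℕ :=
  ((F.filter A).image (ipat x)).card

/-- for all prescribed values on at most `T` positions there is a key in `F` -/
def UniT {r a : ℕ} (T : ℕ) (F : Finset (Om r a → ℕ)) (st : Pos r a → ℕ) : Prop :=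
  ∀ S : Finset (Pos r a), S.card ≤ T → ∀ φ : Pos r a → Bool, ∃ key ∈ F, ∃ φ' : Pos r a → Bool,
    (∀ s ∈ S, φ' s = φ s) ∧ PosKey st φ' key

/-- the family of keys is rich up to `T` -/
structure RichT {r a : ℕ} (T : ℕ) (F : Finset (Om r a → ℕ)) : Prop where
  inj : ∀ key ∈ F, Function.Injective key
  lab : ∀ S : Finset (Lab r a), S.card ≤ T → ∀ φ : Lab r a → Bool, ∃ key ∈ F,
    ∃ φ' : Lab r a → Bool, (∀ s ∈ S, φ' s = φ s) ∧ LabKey φ' key
  first0 : UniT T F st0
  first1 : ∀ j, UniT T F (st1 j)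

/-- `m + 1` points sorted in the natural order with the positions of the consecutive first
differences -/
def SrtG {r a m : ℕ} (y : Fin (m + 1) → Om r a) (p : Fin m → Pos r a) : Prop :=
  ∀ i : Fin m, FD st0 (y i.castSucc) (y i.succ) (p i) ∧
    y i.castSucc (p i).1 (p i).2 = false ∧ y i.succ (p i).1 (p i).2 = true

lemma ipat_lt {β : Type} {m : ℕ} {x : Fin m → β} {k1 k2 : β → ℕ} (h : ipat x k1 = ipat x k2) (i j : Fin m) :
    k1 (x i) < k1 (x j) ↔ k2 (x i) < k2 (x j) := by
  have := congrFun (congrFun h i) j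
  simpa [ipat] using this

lemma ipat_blk {β : Type} {m : ℕ} {x : Fin m → β} {k1 k2 : β → ℕ} (h : ipat x k1 = ipat x k2)
    (i j k l : Fin m) : Blk k1 (x i) (x j) (x k) (x l) ↔ Blk k2 (x i) (x j) (x k) (x l) := by
  unfold Blk
  simp only [ipat_lt h]

lemma ipat_crs {β : Type} {m : ℕ} {x : Fin m → β} {k1 k2 : β → ℕ} (h : ipat x k1 = ipat x k2)
    (i j k l : Fin m) : Crs k1 (x i) (x j) (x k) (x l) ↔ Crs k2 (x i) (x j) (x k) (x l) := by
  unfold Crs
  simp only [ipat_lt h]

/-- adding the numbers of patterns of two exclusive kinds -/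
lemma nq_add {β : Type} {m : ℕ} (F : Finset (β → ℕ)) (A B : (β → ℕ) → Prop) (x : Fin m → β)
    (h : ∀ k1 ∈ F, ∀ k2 ∈ F, ipat x k1 = ipat x k2 → A k1 → B k2 → False) :
    nq F A x + nq F B x ≤ np F x := by
  classical
  unfold nq np
  rw [← Finset.card_union_of_disjoint]
  · apply Finset.card_le_card
    intro T hT
    rw [Finset.mem_union] at hT
    rcases hT with hT | hT
    · obtain ⟨k, hk, rfl⟩ := Finset.mem_image.1 hT
      exact Finset.mem_image_of_mem _ (Finset.mem_filter.1 hk).1
    · obtain ⟨k, hk, rfl⟩ := Finset.mem_image.1 hT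
      exact Finset.mem_image_of_mem _ (Finset.mem_filter.1 hk).1
  · rw [Finset.disjoint_left]
    intro T h1 h2
    obtain ⟨k1, hk1, e1⟩ := Finset.mem_image.1 h1
    obtain ⟨k2, hk2, e2⟩ := Finset.mem_image.1 h2
    rw [Finset.mem_filter] at hk1 hk2
    exact h k1 hk1.1 k2 hk2.1 (e1.trans e2.symm) hk1.2 hk2.2

/-- adding the numbers of patterns of three exclusive kinds -/
lemma nq_add3 {β : Type} {m : ℕ} (F : Finset (β → ℕ)) (A B C : (β → ℕ) → Prop) (x : Fin m → β)
    (h : ∀ k1 ∈ F, ∀ k2 ∈ F, ipat x k1 = ipat x k2 → A k1 → B k2 → False)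
    (h' : ∀ k1 ∈ F, ∀ k2 ∈ F, ipat x k1 = ipat x k2 → A k1 → C k2 → False)
    (h'' : ∀ k1 ∈ F, ∀ k2 ∈ F, ipat x k1 = ipat x k2 → B k1 → C k2 → False) :
    nq F A x + nq F B x + nq F C x ≤ np F x := by
  classical
  obtain ⟨AB, hAB⟩ : ∃ AB : (β → ℕ) → Prop, ∀ k, AB k ↔ (A k ∨ B k) := ⟨_, fun _ => Iff.rfl⟩
  have h1 : nq F A x + nq F B x ≤ nq F AB x := by
    unfold nq
    rw [← Finset.card_union_of_disjoint]
    · apply Finset.card_le_card
      intro T hT
      rw [Finset.mem_union] at hT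
      rcases hT with hT | hT
      · obtain ⟨k, hk, rfl⟩ := Finset.mem_image.1 hT
        rw [Finset.mem_filter] at hk
        exact Finset.mem_image_of_mem _ (Finset.mem_filter.2 ⟨hk.1, (hAB k).2 (Or.inl hk.2)⟩)
      · obtain ⟨k, hk, rfl⟩ := Finset.mem_image.1 hT
        rw [Finset.mem_filter] at hk
        exact Finset.mem_image_of_mem _ (Finset.mem_filter.2 ⟨hk.1, (hAB k).2 (Or.inr hk.2)⟩)
    · rw [Finset.disjoint_left]
      intro T h1 h2
      obtain ⟨k1, hk1, e1⟩ := Finset.mem_image.1 h1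
      obtain ⟨k2, hk2, e2⟩ := Finset.mem_image.1 h2
      rw [Finset.mem_filter] at hk1 hk2
      exact h k1 hk1.1 k2 hk2.1 (e1.trans e2.symm) hk1.2 hk2.2
  have h2 := nq_add F AB C x (fun k1 hk1 k2 hk2 e hab hc => by
    rcases (hAB k1).1 hab with ha | hb
    · exact h' k1 hk1 k2 hk2 e ha hc
    · exact h'' k1 hk1 k2 hk2 e hb hc)
  omega

lemma nq_mono {β : Type} {m : ℕ} (F : Finset (β → ℕ)) (A B : (β → ℕ) → Prop) (x : Fin m → β)
    (h : ∀ k ∈ F, A k → B k) : nq F A x ≤ nq F B x := by
  classical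
  unfold nq
  apply Finset.card_le_card
  intro T hT
  obtain ⟨k, hk, rfl⟩ := Finset.mem_image.1 hT
  rw [Finset.mem_filter] at hk
  exact Finset.mem_image_of_mem _ (Finset.mem_filter.2 ⟨hk.1, h k hk.1 hk.2⟩)

lemma one_le_nq {β : Type} {m : ℕ} (F : Finset (β → ℕ)) (A : (β → ℕ) → Prop) (x : Fin m → β)
    {k : β → ℕ} (hk : k ∈ F) (h : A k) : 1 ≤ nq F A x := by
  classical
  unfold nq
  rw [Nat.succ_le_iff, Finset.card_pos]
  exact ⟨ipat x k, Finset.mem_image_of_mem _ (Finset.mem_filter.2 ⟨hk, h⟩)⟩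

lemma nq_le_np {β : Type} {m : ℕ} (F : Finset (β → ℕ)) (A : (β → ℕ) → Prop) (x : Fin m → β) :
    nq F A x ≤ np F x := by
  classical
  unfold nq np
  exact Finset.card_le_card (Finset.image_subset_image (Finset.filter_subset _ _))

lemma nq_perm {β : Type} {m : ℕ} (F : Finset (β → ℕ)) (A : (β → ℕ) → Prop) (x : Fin m → β)
    (σ : Equiv.Perm (Fin m)) : nq F A (fun i => x (σ i)) = nq F A x := by
  classical
  unfold nq
  have : (F.filter A).image (ipat (fun i => x (σ i))) =
      ((F.filter A).image (ipat x)).image (fun T i k => T (σ i) (σ k)) := by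
    rw [Finset.image_image]
    rfl
  rw [this, Finset.card_image_of_injective]
  intro T T' h
  funext i k
  have := congrFun (congrFun h (σ.symm i)) (σ.symm k)
  simpa using this

lemma np_perm {β : Type} {m : ℕ} (F : Finset (β → ℕ)) (x : Fin m → β)
    (σ : Equiv.Perm (Fin m)) : np F (fun i => x (σ i)) = np F x := by
  classical
  unfold np
  have : F.image (ipat (fun i => x (σ i))) =
      (F.image (ipat x)).image (fun T i k => T (σ i) (σ k)) := by
    rw [Finset.image_image]
    rfl
  rw [this, Finset.card_image_of_injective]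
  intro T T' h
  funext i k
  have := congrFun (congrFun h (σ.symm i)) (σ.symm k)
  simpa using this

/-- lower bound for the number of patterns by an injection: every parameter `s` has a key, and the
patterns of keys for different parameters differ -/
lemma le_nq {β σ : Type} {m : ℕ} [Fintype σ] (F : Finset (β → ℕ)) (A : (β → ℕ) → Prop) (x : Fin m → β)
    (k : σ → β → ℕ) (hF : ∀ s, k s ∈ F) (hA : ∀ s, A (k s))
    (hinj : ∀ s t, ipat x (k s) = ipat x (k t) → s = t) : Fintype.card σ ≤ nq F A x := by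
  classical
  unfold nq
  rw [← Finset.card_univ]
  apply Finset.card_le_card_of_injOn (fun s => ipat x (k s))
  · intro s _
    exact Finset.mem_coe.2 (Finset.mem_image_of_mem _ (Finset.mem_filter.2 ⟨hF s, hA s⟩))
  · intro s _ t _ h
    exact hinj s t h


end R175.PSG
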