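import Mathlib
import Pool.Agent.R175.PSG.Base
import Pool.Agent.W435.PS.Typ

/-!
Partial shattering, general number of points: sorting, collisions and the count.
-/

set_option autoImplicit false

namespace R175.PSG

open Finset
open W926.PS (Om Pos Lab lab nrk Before FD PosKey LabKey Blk Crs Coll st0 st1 st2 S_GL S_UNIV
  nrk_inj nrk_lt_iff FD0_iff exists_FD not_blk_crs)

theorem srt (hGL : S_GL) {r a m : ℕ} (x : Fin (m + 1) → Om r a) (hx : Function.Injective x) :
    ∃ (σ : Equiv.Perm (Fin (m + 1))) (p : Fin m → Pos r a), SrtG (fun i => x (σ i)) p := by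
  obtain ⟨w, hw, hlt⟩ := hGL r a st0 (fun _ _ => false) (fun _ _ _ _ => rfl)
  set σ : Equiv.Perm (Fin (m + 1)) := Tuple.sort (w ∘ x) with hσ
  have hmono : StrictMono ((w ∘ x) ∘ σ) :=
    (Tuple.monotone_sort (w ∘ x)).strictMono_of_injective ((hw.comp hx).comp σ.injective)
  have hne : ∀ i : Fin m, x (σ i.castSucc) ≠ x (σ i.succ) := by
    intro i h
    have := σ.injective (hx h)
    exact absurd this (Fin.castSucc_lt_succ (i := i)).ne
  choose p hp using fun i : Fin m => exists_FD st0 (hne i)
  refine ⟨σ, p, fun i => ?_⟩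
  have h1 : x (σ i.castSucc) (p i).1 (p i).2 = false :=
    (hlt _ _ _ (hp i)).1 (hmono (Fin.castSucc_lt_succ (i := i)))
  refine ⟨hp i, h1, ?_⟩
  have h2 := (hp i).2
  rw [h1] at h2
  simpa using h2.symm

theorem umin {r a m : ℕ} (y : Fin (m + 1) → Om r a) (p : Fin m → Pos r a) (hs : SrtG y p)
    (i k : Fin m) (hik : i < k) (hpk : p i = p k) :
    ∃ h, i < h ∧ h < k ∧ nrk (p h) < nrk (p i) := by
  by_contra hcon
  push Not at hcon
  have key : ∀ n : ℕ, ∀ hn : n < m + 1, (i : ℕ) + 1 ≤ n → n ≤ k →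
      y ⟨n, hn⟩ (p i).1 (p i).2 = true := by
    intro n
    induction n with
    | zero => intro hn h1 _; omega
    | succ n ih =>
      intro hn h1 h2
      rcases Nat.lt_or_ge (i : ℕ) n with hin | hin
      · have hn5 : n < m := by omega
        have hprev := ih (by omega) (by omega) (by omega)
        set h : Fin m := ⟨n, hn5⟩ with hh
        have h3 : i < h := by simp [hh, Fin.lt_def]; exact hin
        have h4 : h < k := by simp [hh, Fin.lt_def]; omega
        have h5 := hcon h h3 h4
        have hsh := hs h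
        have e1 : h.castSucc = (⟨n, by omega⟩ : Fin (m + 1)) := rfl
        have e2 : h.succ = (⟨n + 1, hn⟩ : Fin (m + 1)) := rfl
        rw [e1, e2] at hsh
        rcases Nat.lt_or_ge (nrk (p i)) (nrk (p h)) with h6 | h6
        · have hb : Before st0 (p i) (p h) := Or.inr ⟨rfl, h6⟩
          rw [← hsh.1.1 _ hb]
          exact hprev
        · have h7 : p h = p i := nrk_inj (le_antisymm h6 h5)
          rw [← h7]
          exact hsh.2.2
      · have hni : n = (i : ℕ) := by omega
        subst hni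
        exact (hs i).2.2
  have h8 := key k (by omega) (by rw [Fin.lt_def] at hik; omega) le_rfl
  have h9 := (hs k).2.1
  rw [← hpk] at h9
  have e3 : k.castSucc = (⟨(k : ℕ), by omega⟩ : Fin (m + 1)) := rfl
  rw [e3, h8] at h9
  exact absurd h9 (by decide)

theorem chain {M : ℕ} (y : Fin (M + 1) → Bool) (m n : ℕ) (hm : m ≤ n) (hn : n < M + 1)
    (h : ∀ g : Fin M, m ≤ (g : ℕ) → (g : ℕ) < n → y g.castSucc = y g.succ) :
    y ⟨m, by omega⟩ = y ⟨n, hn⟩ := by
  induction n, hm using Nat.le_induction with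
  | base => rfl
  | succ n hmn ih =>
    have h1 := ih (by omega) (fun g h1 h2 => h g h1 (by omega))
    have h2 := h ⟨n, by omega⟩ hmn (by simp)
    rw [h1]
    exact h2

theorem col {r a m : ℕ} (y : Fin (m + 1) → Om r a) (p : Fin m → Pos r a) (hS : SrtG y p)
    (i k : Fin m) (hik : i < k) (hl : lab (y i.castSucc) (p i) = lab (y k.castSucc) (p k)) :
    Coll (y i.castSucc) (y i.succ) (y k.castSucc) (y k.succ) (p i).1 (p i).2 := by
  have hp : p i = p k := congrArg Prod.fst hl
  have hb : ∀ e, (if e < (p i).2 then y i.castSucc (p i).1 e else false) =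
      (if e < (p k).2 then y k.castSucc (p k).1 e else false) :=
    fun e => congrFun (congrArg Prod.snd hl) e
  rw [← hp] at hb
  have hb' : ∀ e, e < (p i).2 → y i.castSucc (p i).1 e = y k.castSucc (p i).1 e := by
    intro e he
    have := hb e
    rwa [if_pos he, if_pos he] at this
  obtain ⟨hi1, hi2, hi3⟩ := hS i
  obtain ⟨hk1, hk2, hk3⟩ := hS k
  rw [← hp] at hk1 hk2 hk3
  have fi := FD0_iff.1 hi1
  have fk := FD0_iff.1 hk1
  refine ⟨fi.1, fk.1, ?_, ?_, hi2, hk2, hi3, hk3⟩
  · -- a block before `j` in which the two points differ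
    obtain ⟨h0, h01, h02, h03⟩ := umin y p hS i k hik hp
    obtain ⟨h, hh, hmin⟩ := (univ.filter fun h : Fin m => i ≤ h ∧ h < k).exists_min_image
      (fun h => nrk (p h)) ⟨h0, by simp [h01.le, h02]⟩
    rw [mem_filter] at hh
    have hlt : nrk (p h) < nrk (p i) := by
      have := hmin h0 (by simp [h01.le, h02])
      omega
    have hstrict : ∀ g : Fin m, i ≤ g → g < k → g ≠ h → nrk (p h) < nrk (p g) := by
      intro g hg1 hg2 hgh
      have h1 := hmin g (by simp [hg1, hg2])
      refine lt_of_le_of_ne h1 fun heq => ?_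
      have hpe : p h = p g := nrk_inj heq
      rcases lt_or_gt_of_ne hgh with h2 | h2
      · obtain ⟨u, hu1, hu2, hu3⟩ := umin y p hS g h h2 hpe.symm
        have h3 := hmin u (by simp [hg1.trans hu1.le, hu2.trans hh.2.2])
        rw [← hpe] at hu3
        omega
      · obtain ⟨u, hu1, hu2, hu3⟩ := umin y p hS h g h2 hpe
        have h3 := hmin u (by simp [hh.2.1.trans hu1.le, hu2.trans hg2])
        omega
    have hagree : ∀ g : Fin m, i ≤ g → g < k → g ≠ h →
        y g.castSucc (p h).1 (p h).2 = y g.succ (p h).1 (p h).2 := by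
      intro g hg1 hg2 hgh
      apply (hS g).1.1
      right
      exact ⟨rfl, hstrict g hg1 hg2 hgh⟩
    have c1 : y i.castSucc (p h).1 (p h).2 = y h.castSucc (p h).1 (p h).2 := by
      have := chain (fun l => y l (p h).1 (p h).2) i h hh.2.1 (by omega) (by
        intro g h1 h2
        have h3 : g < h := h2
        exact hagree g h1 (h3.trans hh.2.2) h3.ne)
      exact this
    have c2 : y h.succ (p h).1 (p h).2 = y k.castSucc (p h).1 (p h).2 := by
      have := chain (fun l => y l (p h).1 (p h).2) (h + 1) k hh.2.2 (by omega) (by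
        intro g h1 h2
        have h3 : h < g := by
          rw [Fin.lt_def]; omega
        exact hagree g (hh.2.1.trans h3.le) h2 h3.ne')
      exact this
    have hne : y i.castSucc (p h).1 (p h).2 ≠ y k.castSucc (p h).1 (p h).2 := by
      rw [c1, ← c2, (hS h).2.1, (hS h).2.2]
      decide
    refine ⟨(p h).1, ?_, ?_⟩
    · rcases nrk_lt_iff.1 hlt with h1 | ⟨h1, h2⟩
      · exact h1
      · exfalso
        apply hne
        rw [h1]
        exact hb' _ h2
    · intro h1
      exact hne (by rw [h1])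
  · intro e he
    refine ⟨fi.2.1 e he, hb' e he, ?_⟩
    rw [hb' e he]
    exact fk.2.1 e he

/-- many patterns from labels -/
theorem labn {r a m T : ℕ} (F : Finset (Om r a → ℕ)) (hF : RichT T F)
    (y : Fin (m + 1) → Om r a) (p : Fin m → Pos r a) (hy : SrtG y p) (t : ℕ) (ht : t ≤ T)
    (htL : t ≤ (univ.image (fun i : Fin m => lab (y i.castSucc) (p i))).card) :
    2 ^ t ≤ nq F (fun key => ∃ φ, LabKey φ key) y := by
  classical
  obtain ⟨L, hL, hLc⟩ := Finset.exists_subset_card_eq htL
  have h1 := fun s : L → Bool =>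
    hF.lab L (hLc.le.trans ht) (fun z => if h : z ∈ L then s ⟨z, h⟩ else false)
  choose key hkey φ' hφ hlab using h1
  have h2 := le_nq F (fun key => ∃ φ, LabKey φ key) y key hkey
    (fun s => ⟨φ' s, hlab s⟩) (by
      intro s t hst
      funext z
      obtain ⟨z, hz⟩ := z
      have hz' := hL hz
      rw [Finset.mem_image] at hz'
      obtain ⟨i, -, rfl⟩ := hz'
      have h3 := ipat_lt hst i.castSucc i.succ
      have h4 := hlab s _ _ _ (hy i).1
      have h5 := hlab t _ _ _ (hy i).1
      rw [h4, h5, (hy i).2.1, hφ s _ hz, hφ t _ hz, dif_pos hz,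
        dif_pos hz] at h3
      cases hs : s ⟨lab (y i.castSucc) (p i), hz⟩ <;>
        cases ht : t ⟨lab (y i.castSucc) (p i), hz⟩ <;> simp_all)
  have h3 : Fintype.card (L → Bool) = 2 ^ L.card := by simp
  rw [h3, hLc] at h2
  exact h2

/-- `2 ^ t` patterns from one reading order, if `2 ^ (t - 1) < M` -/
theorem eight {r a M T : ℕ} (F : Finset (Om r a → ℕ)) (st : Pos r a → ℕ) (hU : UniT T F st)
    (x : Fin M → Om r a) (hx : Function.Injective x) (t : ℕ) (htT : t ≤ T)
    (ht : ∀ s, s < t → 2 ^ s < M) : 2 ^ t ≤ nq F (fun key => ∃ φ, PosKey st φ key) x := by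
  classical
  set D : Finset (Pos r a) := univ.filter (fun p => ∃ i k, FD st (x i) (x k) p) with hD
  have hinj : Function.Injective (fun (i : Fin M) (p : {p // p ∈ D}) => x i p.1.1 p.1.2) := by
    intro i k hik
    by_contra hne
    obtain ⟨p, hp⟩ := exists_FD st (fun e => hne (hx e) : x i ≠ x k)
    have hpD : p ∈ D := by
      rw [hD, mem_filter]
      exact ⟨mem_univ _, i, k, hp⟩
    exact hp.2 (congrFun hik ⟨p, hpD⟩)
  have hcard : t ≤ D.card := by
    have h1 := Fintype.card_le_of_injective _ hinj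
    simp only [Fintype.card_fin, Fintype.card_fun, Fintype.card_bool, Fintype.card_coe] at h1
    by_contra hlt
    push Not at hlt
    have := ht _ hlt
    omega
  obtain ⟨S, hSD, hS⟩ := Finset.exists_subset_card_eq hcard
  have hkey : ∀ b : {p // p ∈ S} → Bool, ∃ key ∈ F, ∃ φ' : Pos r a → Bool,
      (∀ s : {p // p ∈ S}, φ' s.1 = b s) ∧ PosKey st φ' key := by
    intro b
    obtain ⟨key, hk, φ', h1, h2⟩ := hU S (hS.le.trans htT)
      (fun p => if h : p ∈ S then b ⟨p, h⟩ else false)
    refine ⟨key, hk, φ', fun s => ?_, h2⟩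
    rw [h1 s.1 s.2, dif_pos s.2]
  choose key hkF φ hφ hpk using hkey
  have := le_nq F (fun key => ∃ φ, PosKey st φ key) x key hkF (fun b => ⟨φ b, hpk b⟩) (by
    intro s t hst
    funext p
    have hpD := hSD p.2
    rw [hD, mem_filter] at hpD
    obtain ⟨-, i, l, hfd⟩ := hpD
    have e1 := hpk s _ _ _ hfd
    have e2 := hpk t _ _ _ hfd
    have e3 := ipat_lt hst i l
    rw [hφ s p] at e1
    rw [hφ t p] at e2
    have e4 : (x i p.1.1 p.1.2 = s p ↔ x i p.1.1 p.1.2 = t p) := e1.symm.trans (e3.trans e2)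
    revert e4
    cases x i p.1.1 p.1.2 <;> cases s p <;> cases t p <;> simp)
  simp only [Fintype.card_fun, Fintype.card_bool, Fintype.card_coe, hS] at this
  exact this

lemma coll_ne {r a : ℕ} {x y z v : Om r a} {j : Fin r} {d : Fin a} (h : Coll x y z v j d) :
    y ≠ z := by
  intro e
  have h1 := h.byy
  have h2 := h.bz
  rw [e, h2] at h1
  exact absurd h1 (by decide)

/-- exclusivity of block type and crossing type -/
lemma excl {r a T M : ℕ} {F : Finset (Om r a → ℕ)} (hF : RichT T F) {y : Fin M → Om r a}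
    {i j k l : Fin M} {b : Fin r} {d : Fin a} (hc : Coll (y i) (y j) (y k) (y l) b d)
    {k1 k2 : Om r a → ℕ} (hk1 : k1 ∈ F) (e : ipat y k1 = ipat y k2)
    (h1 : Blk k1 (y i) (y j) (y k) (y l)) (h2 : Crs k2 (y i) (y j) (y k) (y l)) : False :=
  not_blk_crs (hF.inj k1 hk1) (coll_ne hc) h1 ((ipat_crs e i j k l).2 h2)

/-- position keys in the natural reading order are label keys -/
lemma labKey_of_pos {r a : ℕ} {φ : Pos r a → Bool} {key : Om r a → ℕ} (h : PosKey st0 φ key) :
    LabKey (fun s => φ s.1) key := by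
  intro x y p hp
  rw [h x y p hp]
  rfl

theorem cnt (hGL : S_GL) {r a T m : ℕ} (F : Finset (Om r a → ℕ)) (hF : RichT T F)
    (x : Fin (m + 1) → Om r a) (hx : Function.Injective x) (t : ℕ) (htT : t + 1 ≤ T)
    (htm : t < m) (ht : ∀ s, s < t → 2 ^ s < m + 1) : 2 ^ (t + 1) ≤ np F x := by
  classical
  obtain ⟨σ, p, hy⟩ := srt hGL x hx
  rw [← np_perm F x σ]
  set y : Fin (m + 1) → Om r a := fun i => x (σ i) with hydef
  have hyinj : Function.Injective y := fun i j e => σ.injective (hx e)
  by_cases hL : t + 1 ≤ (univ.image (fun i : Fin m => lab (y i.castSucc) (p i))).card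
  · exact (labn F hF y p hy (t + 1) htT hL).trans (nq_le_np F _ y)
  · have hni : ¬ Function.Injective (fun i : Fin m => lab (y i.castSucc) (p i)) := by
      intro hi
      have := Finset.card_image_of_injective (univ : Finset (Fin m)) hi
      simp only [Finset.card_univ, Fintype.card_fin] at this
      omega
    obtain ⟨i, k, hik, e⟩ : ∃ i k : Fin m, i < k ∧
        lab (y i.castSucc) (p i) = lab (y k.castSucc) (p k) := by
      unfold Function.Injective at hni
      push Not at hni
      obtain ⟨i, k, e, hne⟩ := hni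
      rcases lt_or_gt_of_ne hne with h | h
      · exact ⟨i, k, h, e⟩
      · exact ⟨k, i, h, e.symm⟩
    have hcoll := col y p hy i k hik e
    have h8 := eight F (st1 (p i).1) (hF.first1 _) y hyinj t (by omega) ht
    have h8' := eight F st0 hF.first0 y hyinj t (by omega) ht
    have h8'' : nq F (fun key => ∃ φ, PosKey st0 φ key) y ≤
        nq F (fun key => ∃ φ, LabKey φ key) y :=
      nq_mono F _ _ y (fun k _ ⟨φ, hφ⟩ => ⟨_, labKey_of_pos hφ⟩)
    have hadd := nq_add F (fun key => ∃ φ, LabKey φ key)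
      (fun key => ∃ φ, PosKey (st1 (p i).1) φ key)
      y (by
        rintro k1 hk1 k2 hk2 e' ⟨φ, h1⟩ ⟨φ', h2⟩
        have t1 := (W435.PS.typ r a _ _ _ _ _ _ hcoll k1).1 φ h1
        have t2 := (W435.PS.typ r a _ _ _ _ _ _ hcoll k2).2.1 φ' h2
        exact excl hF hcoll hk1 e' t1 t2)
    rw [pow_succ]
    omega

end R175.PSG
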