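import Mathlib
import Pool.Agent.R175.PSG.Cnt

/-!
Partial shattering: a bound for the number of points by the numbers of labels and of blocks with
collisions.
-/

set_option autoImplicit false

namespace R175.PSG

open Finset
open W926.PS (Om Pos Lab lab nrk Before FD PosKey LabKey Blk Crs Coll st0 st1 st2 S_GL S_UNIV
  nrk_inj nrk_lt_iff FD0_iff exists_FD not_blk_crs)

/-- interleaving sets -/
lemma card_le_succ {m : ℕ} (I H : Finset (Fin m))
    (h : ∀ i ∈ I, ∀ k ∈ I, i < k → ∃ h ∈ H, i < h ∧ h < k) : I.card ≤ H.card + 1 := by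
  classical
  rcases I.eq_empty_or_nonempty with rfl | hI
  · simp
  obtain ⟨a, haI, hamax⟩ := I.exists_max_image id hI
  have hex : ∀ i ∈ I.erase a, ∃ g ∈ H, i < g ∧ ∀ g' ∈ H, i < g' → g ≤ g' := by
    intro i hi
    rw [mem_erase] at hi
    have hlt : i < a := lt_of_le_of_ne (hamax i hi.2) hi.1
    obtain ⟨g0, hg0, hg1, -⟩ := h i hi.2 a haI hlt
    obtain ⟨g, hg, hmin⟩ := (H.filter (fun g => i < g)).exists_min_image id
      ⟨g0, mem_filter.2 ⟨hg0, hg1⟩⟩
    rw [mem_filter] at hg
    exact ⟨g, hg.1, hg.2, fun g' hg' hi' => hmin g' (mem_filter.2 ⟨hg', hi'⟩)⟩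
  choose! g hgH hlt hmin using hex
  have hc : (I.erase a).card ≤ H.card := by
    apply card_le_card_of_injOn g (fun i hi => hgH i hi)
    intro i hi k hk e
    have hi' := (mem_erase.1 (mem_coe.1 hi)).2
    have hk' := (mem_erase.1 (mem_coe.1 hk)).2
    rcases lt_trichotomy i k with hik | hik | hik
    · exfalso
      obtain ⟨g0, hg0, h1, h2⟩ := h i hi' k hk' hik
      have h3 := hmin i hi g0 hg0 h1
      have h4 := hlt k hk
      rw [e] at h3
      exact absurd (lt_of_lt_of_le h4 h3) (not_lt.2 h2.le)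
    · exact hik
    · exfalso
      obtain ⟨g0, hg0, h1, h2⟩ := h k hk' i hi' hik
      have h3 := hmin k hk g0 hg0 h1
      have h4 := hlt i hi
      rw [← e] at h3
      exact absurd (lt_of_lt_of_le h4 h3) (not_lt.2 h2.le)
  rw [card_erase_of_mem haI] at hc
  have : 0 < I.card := card_pos.2 hI
  omega

/-- between nodes with equal labels there is a node in an earlier block -/
lemma between {r a m : ℕ} (y : Fin (m + 1) → Om r a) (p : Fin m → Pos r a) (hS : SrtG y p)
    (i k : Fin m) (hik : i < k) (hl : lab (y i.castSucc) (p i) = lab (y k.castSucc) (p k)) :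
    ∃ h, i < h ∧ h < k ∧ (p h).1 < (p i).1 := by
  by_contra hcon
  push Not at hcon
  have hp : p i = p k := congrArg Prod.fst hl
  have hc := col y p hS i k hik hl
  obtain ⟨b, hb, hne⟩ := hc.ne
  apply hne
  have hb' : ∀ h : Fin m, i ≤ h → h < k → y h.castSucc b = y h.succ b := by
    intro h h1 h2
    have h3 : b < (p h).1 := by
      rcases eq_or_lt_of_le h1 with h4 | h4
      · rw [← h4]; exact hb
      · exact lt_of_lt_of_le hb (hcon h h4 h2)
    exact (FD0_iff.1 (hS h).1).1 b h3
  funext e
  have hch := chain (fun l => y l b e) i k hik.le (by omega) (by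
    intro g h1 h2
    exact congrFun (hb' g h1 h2) e)
  exact hch

end R175.PSG
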