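import Mathlib

/-!
Partial shattering: numerics for many blocks with collisions.
-/

set_option autoImplicit false

namespace R175.PSG

open Finset

lemma fourth (u : ℕ) : (1 + u) ^ 4 ≤ 41 * 2 ^ u := by
  have hstep : ∀ v : ℕ, (1 + (v + 5)) ^ 4 ≤ 41 * 2 ^ (v + 5) := by
    intro v
    induction v with
    | zero => norm_num
    | succ v ih =>
      have h1 : (1 + (v + 1 + 5)) ^ 4 ≤ 2 * (1 + (v + 5)) ^ 4 := by
        have e : 2 * (1 + (v + 5)) ^ 4 = (1 + (v + 1 + 5)) ^ 4 +
          (v ^ 4 + 20 * v ^ 3 + 138 * v ^ 2 + 356 * v + 191) := by ring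
        omega
      have h2 : 41 * 2 ^ (v + 1 + 5) = 2 * (41 * 2 ^ (v + 5)) := by ring
      rw [h2]
      omega
  rcases Nat.lt_or_ge u 5 with h | h
  · interval_cases u <;> norm_num
  · obtain ⟨v, rfl⟩ : ∃ v, u = v + 5 := ⟨u - 5, by omega⟩
    exact hstep v

lemma growth (J : ℕ → Prop) [DecidablePred J] (n u : ℕ → ℕ)
    (h1 : ∀ j, ¬ J j → n j ≤ u j) (h2 : ∀ j, n j ≤ u j * (1 + ∑ i ∈ range j, n i)) (r : ℕ) :
    1 + ∑ i ∈ range r, n i ≤
      (∏ i ∈ range r, if J i then 1 + u i else 1) * (1 + ∑ i ∈ range r, if J i then 0 else u i) := by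
  induction r with
  | zero => simp
  | succ r ih =>
    rw [sum_range_succ, prod_range_succ, sum_range_succ]
    by_cases hJ : J r
    · rw [if_pos hJ, if_pos hJ]
      have h3 := h2 r
      generalize 1 + ∑ i ∈ range r, (if J i then 0 else u i) = B at *
      generalize (∏ i ∈ range r, if J i then 1 + u i else 1) = W at *
      generalize ∑ i ∈ range r, n i = S at *
      have h4 : 1 + (S + n r) ≤ (1 + u r) * (1 + S) := by nlinarith
      have h5 : (1 + u r) * (1 + S) ≤ (1 + u r) * (W * B) := Nat.mul_le_mul_left _ ih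
      calc 1 + (S + n r) ≤ (1 + u r) * (W * B) := h4.trans h5
        _ = _ := by ring_nf
    · rw [if_neg hJ, if_neg hJ]
      have h3 := h1 r hJ
      have hW : 1 ≤ ∏ i ∈ range r, (if J i then 1 + u i else 1) := by
        apply Nat.one_le_iff_ne_zero.2
        rw [prod_ne_zero_iff]
        intro i _
        split_ifs <;> omega
      generalize ∑ i ∈ range r, (if J i then 0 else u i) = B at *
      generalize (∏ i ∈ range r, if J i then 1 + u i else 1) = W at *
      generalize ∑ i ∈ range r, n i = S at *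
      nlinarith

lemma growth4 (J : ℕ → Prop) [DecidablePred J] (n u : ℕ → ℕ)
    (h1 : ∀ j, ¬ J j → n j ≤ u j) (h2 : ∀ j, n j ≤ u j * (1 + ∑ i ∈ range j, n i)) (r : ℕ) :
    (1 + ∑ i ∈ range r, n i) ^ 4 ≤
      41 ^ (((range r).filter J).card + 1) * 2 ^ (∑ i ∈ range r, u i) := by
  have h3 := growth J n u h1 h2 r
  have h4 : (∏ i ∈ range r, if J i then 1 + u i else 1) ^ 4 ≤
      41 ^ ((range r).filter J).card * 2 ^ (∑ i ∈ range r, if J i then u i else 0) := by
    rw [← prod_pow, ← prod_pow_eq_pow_sum, card_filter, ← prod_pow_eq_pow_sum, ← prod_mul_distrib]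
    apply prod_le_prod'
    intro i _
    by_cases hJ : J i
    · simp only [if_pos hJ]
      simpa using fourth (u i)
    · simp only [if_neg hJ]
      simp
  have h5 := fourth (∑ i ∈ range r, if J i then 0 else u i)
  have h6 : ∑ i ∈ range r, u i = (∑ i ∈ range r, if J i then u i else 0) +
      ∑ i ∈ range r, if J i then 0 else u i := by
    rw [← sum_add_distrib]
    apply sum_congr rfl
    intro i _
    split_ifs <;> simp
  calc (1 + ∑ i ∈ range r, n i) ^ 4 ≤ ((∏ i ∈ range r, if J i then 1 + u i else 1) *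
        (1 + ∑ i ∈ range r, if J i then 0 else u i)) ^ 4 := Nat.pow_le_pow_left h3 4
    _ = (∏ i ∈ range r, if J i then 1 + u i else 1) ^ 4 *
        (1 + ∑ i ∈ range r, if J i then 0 else u i) ^ 4 := mul_pow _ _ _
    _ ≤ (41 ^ ((range r).filter J).card * 2 ^ (∑ i ∈ range r, if J i then u i else 0)) *
        (41 * 2 ^ (∑ i ∈ range r, if J i then 0 else u i)) := Nat.mul_le_mul h4 h5
    _ = _ := by rw [h6, pow_add 2, pow_succ]; ring

end R175.PSG
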