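import Mathlib
import Pool.Agent.R175.PSG.Blocks
import Pool.Agent.R175.PSG.Num

/-!
Partial shattering: many blocks with collisions give many patterns.
-/

set_option autoImplicit false

namespace R175.PSG

open Finset
open W926.PS (Om Pos Lab lab nrk Before FD PosKey LabKey Blk Crs Coll st0 st1 st2 S_GL S_UNIV
  nrk_inj nrk_lt_iff FD0_iff exists_FD not_blk_crs)

/-- block `j` contains two nodes with equal labels -/
def IsColl {r a m : ℕ} (y : Fin (m + 1) → Om r a) (p : Fin m → Pos r a) (j : ℕ) : Prop :=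
  ∃ i k : Fin m, i < k ∧ lab (y i.castSucc) (p i) = lab (y k.castSucc) (p k) ∧ ((p i).1 : ℕ) = j

open Classical in
/-- the number of points is bounded by the numbers of labels and of blocks with collisions -/
theorem bound {r a m : ℕ} (y : Fin (m + 1) → Om r a) (p : Fin m → Pos r a) (hS : SrtG y p) :
    (m + 1) ^ 4 ≤ 41 ^ (((range r).filter (IsColl y p)).card + 1) *
      2 ^ (univ.image (fun i : Fin m => lab (y i.castSucc) (p i))).card := by
  obtain ⟨lb, hlb⟩ : ∃ lb : Fin m → Lab r a, lb = fun i : Fin m => lab (y i.castSucc) (p i) :=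
    ⟨_, rfl⟩
  have hl1 : ∀ i, (lb i).1 = p i := by
    intro i; rw [hlb]; rfl
  obtain ⟨n, hn⟩ : ∃ n : ℕ → ℕ, n = fun j => (univ.filter (fun h : Fin m => ((p h).1 : ℕ) = j)).card :=
    ⟨_, rfl⟩
  obtain ⟨u, hu⟩ : ∃ u : ℕ → ℕ,
      u = fun j => ((univ.filter (fun h : Fin m => ((p h).1 : ℕ) = j)).image lb).card := ⟨_, rfl⟩
  have hsum : ∀ j, ∑ i ∈ range j, n i = (univ.filter (fun h : Fin m => ((p h).1 : ℕ) < j)).card := by
    intro j
    rw [card_eq_sum_card_fiberwise (s := univ.filter (fun h : Fin m => ((p h).1 : ℕ) < j))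
      (f := fun h => ((p h).1 : ℕ)) (t := range j) (by
        intro h hh
        simpa using hh)]
    apply sum_congr rfl
    intro i hi
    rw [hn]
    simp only
    congr 1
    ext h
    simp only [mem_filter, mem_univ, true_and]
    rw [mem_range] at hi
    constructor
    · intro e; exact ⟨by omega, e⟩
    · intro e; exact e.2
  have h1 : ∀ j, ¬ IsColl y p j → n j ≤ u j := by
    intro j hj
    rw [hn, hu]
    simp only
    rw [card_image_of_injOn]
    intro i hi k hk e
    simp only [coe_filter, mem_univ, true_and, Set.mem_ofPred_eq] at hi hk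
    by_contra hne
    apply hj
    rw [hlb] at e
    rcases lt_or_gt_of_ne hne with h | h
    · exact ⟨i, k, h, e, hi⟩
    · exact ⟨k, i, h, e.symm, hk⟩
  have h2 : ∀ j, n j ≤ u j * (1 + ∑ i ∈ range j, n i) := by
    intro j
    rw [hsum]
    have h3 := card_le_mul_card_image (f := lb) (univ.filter (fun h : Fin m => ((p h).1 : ℕ) = j))
      (1 + (univ.filter (fun h : Fin m => ((p h).1 : ℕ) < j)).card) (by
        intro b hb
        rw [add_comm 1]
        apply card_le_succ
        intro i hi k hk hik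
        simp only [mem_filter, mem_univ, true_and] at hi hk
        have e : lb i = lb k := hi.2.trans hk.2.symm
        rw [hlb] at e
        obtain ⟨h, hh1, hh2, hh3⟩ := between y p hS i k hik e
        refine ⟨h, ?_, hh1, hh2⟩
        simp only [mem_filter, mem_univ, true_and]
        have := hi.1
        rw [Fin.lt_def] at hh3
        omega)
    rw [mul_comm] at h3
    have hnj : n j = (univ.filter (fun h : Fin m => ((p h).1 : ℕ) = j)).card := by rw [hn]
    have huj : u j = ((univ.filter (fun h : Fin m => ((p h).1 : ℕ) = j)).image lb).card := by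
      rw [hu]
    rw [hnj, huj]
    exact h3
  have h3 := growth4 (IsColl y p) n u h1 h2 r
  have h4 : ∑ i ∈ range r, n i = m := by
    rw [hsum]
    have : (univ.filter (fun h : Fin m => ((p h).1 : ℕ) < r)) = univ := by
      ext h
      simp
    rw [this]
    simp
  have h5 : ∑ i ∈ range r, u i ≤ (univ.image lb).card := by
    rw [hu]
    simp only
    rw [← card_biUnion]
    · apply card_le_card
      intro z hz
      rw [mem_biUnion] at hz
      obtain ⟨j, -, hz⟩ := hz
      rw [mem_image] at hz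
      obtain ⟨h, -, rfl⟩ := hz
      exact mem_image_of_mem _ (mem_univ _)
    · intro i _ j _ hij
      rw [Function.onFun, disjoint_left]
      intro z hz hz'
      rw [mem_image] at hz hz'
      obtain ⟨h, hh, rfl⟩ := hz
      obtain ⟨h', hh', e⟩ := hz'
      simp only [mem_filter, mem_univ, true_and] at hh hh'
      apply hij
      rw [← hh, ← hh', ← hl1 h, ← hl1 h', e]
  rw [h4, add_comm 1 m] at h3
  rw [← hlb]
  exact h3.trans (Nat.mul_le_mul_left _ (Nat.pow_le_pow_right (by norm_num) h5))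

open Classical in
/-- adding the numbers of patterns of many exclusive kinds -/
lemma nq_sum {β ι : Type} {M : ℕ} (F : Finset (β → ℕ)) (J : Finset ι) (A0 : (β → ℕ) → Prop)
    (A : ι → (β → ℕ) → Prop) (x : Fin M → β)
    (h0 : ∀ j ∈ J, ∀ k1 ∈ F, ∀ k2 ∈ F, ipat x k1 = ipat x k2 → A0 k1 → A j k2 → False)
    (h : ∀ i ∈ J, ∀ j ∈ J, i ≠ j → ∀ k1 ∈ F, ∀ k2 ∈ F, ipat x k1 = ipat x k2 → A i k1 → A j k2 →
      False) : nq F A0 x + ∑ j ∈ J, nq F (A j) x ≤ np F x := by
  obtain ⟨B, hB⟩ : ∃ B : (β → ℕ) → Prop, ∀ k, B k ↔ ∃ j ∈ J, A j k := ⟨_, fun _ => Iff.rfl⟩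
  have hA : ∑ j ∈ J, nq F (A j) x ≤ nq F B x := by
    unfold nq
    rw [← card_biUnion]
    · apply card_le_card
      intro T hT
      rw [mem_biUnion] at hT
      obtain ⟨j, hj, hT⟩ := hT
      obtain ⟨k, hk, rfl⟩ := mem_image.1 hT
      rw [mem_filter] at hk
      exact mem_image_of_mem _ (mem_filter.2 ⟨hk.1, (hB k).2 ⟨j, hj, hk.2⟩⟩)
    · intro i hi j hj hij
      rw [Function.onFun, disjoint_left]
      intro T h1 h2
      obtain ⟨k1, hk1, e1⟩ := mem_image.1 h1
      obtain ⟨k2, hk2, e2⟩ := mem_image.1 h2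
      rw [mem_filter] at hk1 hk2
      exact h i hi j hj hij k1 hk1.1 k2 hk2.1 (e1.trans e2.symm) hk1.2 hk2.2
  have h3 := nq_add F A0 B x (by
    intro k1 hk1 k2 hk2 e h1 h2
    obtain ⟨j, hj, h2⟩ := (hB k2).1 h2
    exact h0 j hj k1 hk1 k2 hk2 e h1 h2)
  omega

open Classical in
/-- many blocks with collisions give many patterns -/
theorem many {r a T m : ℕ} (F : Finset (Om r a → ℕ)) (hF : RichT T F)
    (y : Fin (m + 1) → Om r a) (p : Fin m → Pos r a) (hy : SrtG y p)
    (hyinj : Function.Injective y) (t : ℕ) (htT : t ≤ T) (ht : ∀ s, s < t → 2 ^ s < m + 1) :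
    (((range r).filter (IsColl y p)).card + 1) * 2 ^ t ≤ np F y := by
  obtain ⟨J, hJ⟩ : ∃ J : Finset (Fin r), J = univ.filter (fun j : Fin r => IsColl y p j) :=
    ⟨_, rfl⟩
  have hJc : J.card = ((range r).filter (IsColl y p)).card := by
    rw [hJ]
    have : (range r).filter (IsColl y p) =
        (univ.filter (fun j : Fin r => IsColl y p j)).map Fin.valEmbedding := by
      ext j
      simp only [mem_filter, mem_range, mem_map, mem_univ, true_and, Fin.valEmbedding_apply]
      constructor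
      · rintro ⟨h1, h2⟩
        exact ⟨⟨j, h1⟩, h2, rfl⟩
      · rintro ⟨j', h1, rfl⟩
        exact ⟨j'.2, h1⟩
    rw [this, card_map]
  rw [← hJc]
  have hcoll : ∀ j ∈ J, ∃ i k : Fin m,
      Coll (y i.castSucc) (y i.succ) (y k.castSucc) (y k.succ) j (p i).2 := by
    intro j hj
    rw [hJ, mem_filter] at hj
    obtain ⟨-, i, k, hik, e, hi⟩ := hj
    have hc := col y p hy i k hik e
    have : (p i).1 = j := Fin.ext hi
    rw [this] at hc
    exact ⟨i, k, hc⟩
  have h8 : ∀ j ∈ J, 2 ^ t ≤ nq F (fun key => ∃ φ, PosKey (st1 j) φ key) y :=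
    fun j _ => eight F (st1 j) (hF.first1 _) y hyinj t htT ht
  have h8' := eight F st0 hF.first0 y hyinj t htT ht
  have h8'' : nq F (fun key => ∃ φ, PosKey st0 φ key) y ≤
      nq F (fun key => ∃ φ, LabKey φ key) y :=
    nq_mono F _ _ y (fun k _ ⟨φ, hφ⟩ => ⟨_, labKey_of_pos hφ⟩)
  have hex : ∀ i ∈ J, ∀ j ∈ J, i < j → ∀ k1 ∈ F, ∀ k2 ∈ F, ipat y k1 = ipat y k2 →
      (∃ φ, PosKey (st1 i) φ k1) → (∃ φ, PosKey (st1 j) φ k2) → False := by
    rintro i hi j hj hij k1 hk1 k2 hk2 e' ⟨φ, h1⟩ ⟨φ', h2⟩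
    obtain ⟨i', k', hc⟩ := hcoll j hj
    have t1 := (W435.PS.typ r a _ _ _ _ _ _ hc k1).2.2.1 i φ hij h1
    have t2 := (W435.PS.typ r a _ _ _ _ _ _ hc k2).2.1 φ' h2
    exact excl hF hc hk1 e' t1 t2
  have hadd := nq_sum F J (fun key => ∃ φ, LabKey φ key)
    (fun j key => ∃ φ, PosKey (st1 j) φ key) y (by
      rintro j hj k1 hk1 k2 hk2 e' ⟨φ, h1⟩ ⟨φ', h2⟩
      obtain ⟨i', k', hc⟩ := hcoll j hj
      have t1 := (W435.PS.typ r a _ _ _ _ _ _ hc k1).1 φ h1
      have t2 := (W435.PS.typ r a _ _ _ _ _ _ hc k2).2.1 φ' h2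
      exact excl hF hc hk1 e' t1 t2)
    (by
      intro i hi j hj hij k1 hk1 k2 hk2 e' h1 h2
      rcases lt_or_gt_of_ne hij with h | h
      · exact hex i hi j hj h k1 hk1 k2 hk2 e' h1 h2
      · exact hex j hj i hi h k2 hk2 k1 hk1 e'.symm h2 h1)
  have hsum : J.card * 2 ^ t ≤ ∑ j ∈ J, nq F (fun key => ∃ φ, PosKey (st1 j) φ key) y := by
    rw [← smul_eq_mul]
    exact card_nsmul_le_sum J _ _ h8
  rw [add_mul, one_mul]
  omega

end R175.PSG
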