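import Mathlib
import Pool.Agent.R175.PSG.Base

/-!
Partial shattering, general number of points: rich families exist.
-/

set_option autoImplicit false

namespace R175.PSG

open Finset
open W926.PS (Om Pos Lab lab nrk Before FD PosKey LabKey Blk Crs Coll st0 st1 st2 S_GL S_UNIV)

theorem richT (T : ℕ) (hGL : S_GL) (hU : S_UNIV) : ∃ C : ℕ, ∀ r κ a : ℕ,
    ∃ F : Finset (Om r a → ℕ), RichT T F ∧
      F.card ≤ C * (a + 1) + C * (r + 1) * (r + κ + 1) * (Nat.log 2 (r * (a + 1)) + 1) +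
        r * (r + 1) * (a / κ + 1) := by
  classical
  obtain ⟨C5, h5⟩ := hU Bool T
  refine ⟨3 * C5, fun r κ a => ?_⟩
  obtain ⟨LL, hLL⟩ : ∃ LL, LL = Nat.log 2 (r * (a + 1)) := ⟨_, rfl⟩
  rw [← hLL]
  have hpos : r * a ≤ 2 ^ (LL + 1) := by
    have h1 : r * (a + 1) < 2 ^ (LL + 1) := by
      rw [hLL]
      exact Nat.lt_pow_succ_log_self (by norm_num) _
    have h2 : r * a ≤ r * (a + 1) := Nat.mul_le_mul_left _ (by omega)
    omega
  -- the keys
  have hL : ∀ φ : Lab r a → Bool, ∃ key : Om r a → ℕ, Function.Injective key ∧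
      LabKey φ key := by
    intro φ
    obtain ⟨key, h1, h2⟩ := hGL r a st0 (fun x p => φ (lab x p)) (by
      intro x y p h
      have : lab x p = lab y p := by
        unfold lab
        congr 1
        funext e
        by_cases he : e < p.2
        · rw [if_pos he, if_pos he]
          refine h (p.1, e) (Or.inr ⟨rfl, ?_⟩)
          unfold nrk
          exact Nat.add_lt_add_left he _
        · rw [if_neg he, if_neg he]
      show φ (lab x p) = φ (lab y p)
      rw [this])
    exact ⟨key, h1, h2⟩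
  have hP : ∀ (st : Pos r a → ℕ) (φ : Pos r a → Bool), ∃ key : Om r a → ℕ,
      Function.Injective key ∧ PosKey st φ key := by
    intro st φ
    obtain ⟨key, h1, h2⟩ := hGL r a st (fun _ p => φ p) (fun _ _ _ _ => rfl)
    exact ⟨key, h1, h2⟩
  choose kL kLi kLk using hL
  choose kP kPi kPk using hP
  obtain ⟨FL, hFL, hFL'⟩ := h5 (Lab r a) (a + LL + 1) (by
    rw [Fintype.card_prod, Fintype.card_prod, Fintype.card_fun, Fintype.card_fin,
      Fintype.card_fin, Fintype.card_bool]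
    calc r * a * 2 ^ a ≤ 2 ^ (LL + 1) * 2 ^ a := Nat.mul_le_mul_right _ hpos
      _ = 2 ^ (a + LL + 1) := by rw [← pow_add]; congr 1; omega)
  obtain ⟨FP, hFP, hFP'⟩ := h5 (Pos r a) (LL + 1) (by
    rw [Fintype.card_prod, Fintype.card_fin, Fintype.card_fin]
    exact hpos)
  obtain ⟨A1, hA1⟩ : ∃ A, A = FL.image kL := ⟨_, rfl⟩
  obtain ⟨A2, hA2⟩ : ∃ A, A = FP.image (kP st0) := ⟨_, rfl⟩
  obtain ⟨A3, hA3⟩ : ∃ A, A = ((univ : Finset (Fin r)) ×ˢ FP).image
      (fun t => kP (st1 t.1) t.2) := ⟨_, rfl⟩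
  have c1 : A1.card ≤ C5 * (a + LL + 1 + 1) := by
    rw [hA1]; exact card_image_le.trans hFL
  have c2 : A2.card ≤ C5 * (LL + 1 + 1) := by
    rw [hA2]; exact card_image_le.trans hFP
  have c3 : A3.card ≤ r * (C5 * (LL + 1 + 1)) := by
    rw [hA3]
    refine card_image_le.trans ?_
    rw [card_product, card_univ, Fintype.card_fin]
    exact Nat.mul_le_mul_left _ hFP
  have uniof : ∀ (F : Finset (Om r a → ℕ)) (st : Pos r a → ℕ), (∀ φ ∈ FP, kP st φ ∈ F) →
      UniT T F st := by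
    intro F st hF S hS φ
    obtain ⟨φ', h1, h2⟩ := hFP' S hS φ
    exact ⟨kP st φ', hF φ' h1, φ', h2, kPk st φ'⟩
  refine ⟨A1 ∪ (A2 ∪ A3), ?_, ?_⟩
  · refine ⟨?_, ?_, ?_, ?_⟩
    · intro key hkey
      simp only [mem_union] at hkey
      rcases hkey with h | h | h
      · rw [hA1, mem_image] at h
        obtain ⟨φ, -, rfl⟩ := h
        exact kLi φ
      · rw [hA2, mem_image] at h
        obtain ⟨φ, -, rfl⟩ := h
        exact kPi _ _
      · rw [hA3, mem_image] at h
        obtain ⟨φ, -, rfl⟩ := h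
        exact kPi _ _
    · intro S hS φ
      obtain ⟨φ', h1, h2⟩ := hFL' S hS φ
      refine ⟨kL φ', ?_, φ', h2, kLk φ'⟩
      simp only [mem_union]
      left
      rw [hA1]
      exact mem_image_of_mem _ h1
    · refine uniof _ _ fun φ hφ => ?_
      simp only [mem_union]
      right; left
      rw [hA2]
      exact mem_image_of_mem _ hφ
    · intro j
      refine uniof _ _ fun φ hφ => ?_
      simp only [mem_union]
      right; right
      rw [hA3]
      exact mem_image.2 ⟨(j, φ), mem_product.2 ⟨mem_univ _, hφ⟩, rfl⟩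
  · have u1 := card_union_le A1 (A2 ∪ A3)
    have u2 := card_union_le A2 A3
    generalize a / κ + 1 = m at *
    have hsum : (A1 ∪ (A2 ∪ A3)).card ≤
        C5 * (a + LL + 1 + 1) + C5 * (LL + 1 + 1) + r * (C5 * (LL + 1 + 1)) := by
      omega
    refine hsum.trans ?_
    have hY : 1 + r ≤ (r + 1) * (r + κ + 1) := by nlinarith
    have e1 : 3 * C5 * (r + 1) * (r + κ + 1) * (LL + 1) =
        3 * (C5 * (((r + 1) * (r + κ + 1)) * (LL + 1))) := by ring
    rw [e1]
    generalize (r + 1) * (r + κ + 1) = X at hY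
    have f1 : C5 * ((1 + r) * (LL + 1)) ≤ C5 * (X * (LL + 1)) :=
      Nat.mul_le_mul_left _ (Nat.mul_le_mul_right _ hY)
    have f3 : 0 ≤ r * (r + 1) * m := Nat.zero_le _
    have f4 : C5 * (LL + 1) ≤ C5 * ((1 + r) * (LL + 1)) :=
      Nat.mul_le_mul_left _ (by nlinarith)
    have f5 : 0 ≤ C5 * a := Nat.zero_le _
    have f6 : r * C5 ≤ C5 * ((1 + r) * (LL + 1)) := by
      rw [mul_comm r C5]
      exact Nat.mul_le_mul_left _ (by nlinarith)
    have g1 : C5 * (a + LL + 1 + 1) = C5 * (LL + 1) + C5 * (a + 1) := by ring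
    have g2 : C5 * (LL + 1 + 1) + r * (C5 * (LL + 1 + 1)) =
        C5 * ((1 + r) * (LL + 1)) + C5 + r * C5 := by ring
    have g3 : 3 * C5 * (a + 1) = 3 * (C5 * (a + 1)) := by ring
    have g4 : C5 ≤ C5 * (a + 1) := Nat.le_mul_of_pos_right _ (by omega)
    omega

end R175.PSG
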