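import Mathlib
import Pool.Agent.R175.PSG.Rich
import Pool.Agent.R175.PSG.Cnt
import Pool.Agent.W554.PS.Gl
import Pool.Agent.W405.PS.Univ
import Pool.Agent.W563.PS.Numu
import Pool.Agent.W214.PS.Rank

/-!
Partial shattering, general number of points: small families of permutations.
-/

set_option autoImplicit false

namespace R175.PSG

open Finset
open W926.PS (Om Pos Lab lab nrk Before FD PosKey LabKey Blk Crs Coll st0 st1 st2 S_GL S_UNIV
  inducedOrder)

/-- a number of patterns which every rich family has -/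
def Cnt (m T N : ℕ) : Prop := ∀ (r a : ℕ) (F : Finset (Om r a → ℕ)), RichT T F →
  ∀ x : Fin m → Om r a, Function.Injective x → N ≤ np F x

theorem up (T : ℕ) (K : ℕ) : ∃ n₀ : ℕ, ∀ n ≥ n₀,
    ∃ P : Finset (Equiv.Perm (Fin n)), K * P.card ≤ Nat.log 2 n ∧
      ∀ m N : ℕ, Cnt m T N → ∀ x : Fin m → Fin n, Function.Injective x →
        N ≤ (P.image (fun ρ => ipat x (fun y => (ρ y : ℕ)))).card := by
  classical
  obtain ⟨C, hC1⟩ := richT T Pool.Agent.W554.PS.gl Pool.Agent.W405.PS.univ_fam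
  obtain ⟨r, κ, n0, hκ, hn⟩ := Pool.Agent.W563.PS.Numu.numu C K
  refine ⟨n0, fun n hn0 => ?_⟩
  obtain ⟨a, ha, hb⟩ := hn n hn0
  obtain ⟨F, hF, hFc⟩ := hC1 r κ a
  have hcard : Fintype.card (Fin n) ≤ Fintype.card (Om r a) := by
    have h1 : Fintype.card (Om r a) = 2 ^ (r * a) := by
      simp only [Om, Fintype.card_fun, Fintype.card_bool, Fintype.card_fin]
      rw [← pow_mul, mul_comm]
    rw [h1, Fintype.card_fin]
    exact ha
  obtain ⟨ι⟩ := Function.Embedding.nonempty_of_card_le hcard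
  have hex : ∀ key ∈ F, ∃ ρ : Equiv.Perm (Fin n), ∀ x y, ρ x < ρ y ↔ key (ι x) < key (ι y) :=
    fun key hk => Pool.Agent.W214.PS.rank n (fun x => key (ι x))
      ((hF.inj key hk).comp ι.injective)
  choose! ρ hρ using hex
  refine ⟨F.image ρ, ?_, ?_⟩
  · refine le_trans ?_ hb
    exact Nat.mul_le_mul_left K (Finset.card_image_le.trans hFc)
  · intro m N hC x hx
    have h1 := hC r a F hF (fun i => ι (x i)) (ι.injective.comp hx)
    refine h1.trans (le_of_eq ?_)
    unfold np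
    rw [Finset.image_image]
    congr 1
    refine Finset.image_congr ?_
    intro key hk
    funext i k
    unfold ipat
    simp only [Function.comp_apply]
    rw [decide_eq_decide]
    rw [← hρ key hk (x i) (x k)]
    exact Fin.lt_def.symm

theorem mem {n m : ℕ} (x : Fin m → Fin n) (i : Fin m) : x i ∈ (univ.image x : Finset (Fin n)) :=
  Finset.mem_image_of_mem x (Finset.mem_univ i)

/-- the points -/
abbrev XX {n m : ℕ} (x : Fin m → Fin n) : Finset (Fin n) := univ.image x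

open Classical in
/-- the pattern of a relation -/
noncomputable def G {n m : ℕ} (x : Fin m → Fin n) (R : XX x → XX x → Prop) :
    Fin m → Fin m → Bool :=
  fun i k => decide (R ⟨x i, mem x i⟩ ⟨x k, mem x k⟩)

theorem G_inj {n m : ℕ} (x : Fin m → Fin n) : Function.Injective (G x) := by
  intro R R' h
  funext a b
  obtain ⟨a, ha⟩ := a
  obtain ⟨b, hb⟩ := b
  obtain ⟨i, -, rfl⟩ := Finset.mem_image.1 ha
  obtain ⟨k, -, rfl⟩ := Finset.mem_image.1 hb
  have h1 := congrFun (congrFun h i) k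
  simp only [G, decide_eq_decide] at h1
  exact propext h1

theorem G_ipat {n m : ℕ} (x : Fin m → Fin n) (ρ : Equiv.Perm (Fin n)) :
    ipat x (fun y => (ρ y : ℕ)) = G x (inducedOrder ρ (univ.image x)) := by
  funext i k
  simp only [G, ipat, inducedOrder, Fin.lt_def]

theorem conv (n m : ℕ) (P : Finset (Equiv.Perm (Fin n))) (x : Fin m → Fin n) :
    ((fun ρ : Equiv.Perm (Fin n) => inducedOrder ρ (univ.image x)) ''
      (P : Set (Equiv.Perm (Fin n)))).ncard =
    (P.image (fun ρ => ipat x (fun y => (ρ y : ℕ)))).card := by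
  rw [← Set.ncard_coe_finset, ← Set.ncard_image_of_injective _ (G_inj x)]
  congr 1
  ext g
  constructor
  · rintro ⟨R, ⟨ρ, hρ, rfl⟩, rfl⟩
    exact Finset.mem_coe.2 (Finset.mem_image.2 ⟨ρ, Finset.mem_coe.1 hρ, G_ipat x ρ⟩)
  · intro hg
    obtain ⟨ρ, hρ, rfl⟩ := Finset.mem_image.1 (Finset.mem_coe.1 hg)
    exact ⟨_, ⟨ρ, Finset.mem_coe.2 hρ, rfl⟩, (G_ipat x ρ).symm⟩

lemma exists_tuple {n m : ℕ} (X : Finset (Fin n)) (hX : X.card = m) :
    ∃ x : Fin m → Fin n, Function.Injective x ∧ univ.image x = X := by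
  refine ⟨fun i => X.orderEmbOfFin hX i, (X.orderEmbOfFin hX).injective, ?_⟩
  ext y
  simp only [Finset.mem_image, Finset.mem_univ, true_and]
  constructor
  · rintro ⟨i, rfl⟩
    exact X.orderEmbOfFin_mem hX i
  · intro hy
    have : y ∈ Set.range (X.orderEmbOfFin hX) := by
      rw [Finset.range_orderEmbOfFin]
      exact_mod_cast hy
    obtain ⟨i, hi⟩ := this
    exact ⟨i, hi⟩

theorem up_shatters (T K : ℕ) : ∃ n₀ : ℕ, ∀ n ≥ n₀,
    ∃ P : Finset (Equiv.Perm (Fin n)), K * P.card ≤ Nat.log 2 n ∧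
      ∀ m N : ℕ, Cnt m T N → ∀ X : Finset (Fin n), X.card = m → W926.PS.Shatters N P X := by
  obtain ⟨n₀, h⟩ := up T K
  refine ⟨n₀, fun n hn => ?_⟩
  obtain ⟨P, hP, h21⟩ := h n hn
  refine ⟨P, hP, fun m N hC X hX => ?_⟩
  obtain ⟨x, hx, rfl⟩ := exists_tuple X hX
  unfold W926.PS.Shatters
  rw [conv n m P x]
  exact h21 m N hC x hx

/-- the count with `clog` -/
theorem cnt_clog (k : ℕ) (hk : 4 ≤ k) :
    Cnt k (Nat.clog 2 k + 1) (2 ^ (Nat.clog 2 k + 1)) := by
  intro r a F hF x hx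
  obtain ⟨m, rfl⟩ : ∃ m, k = m + 1 := ⟨k - 1, by omega⟩
  refine cnt Pool.Agent.W554.PS.gl F hF x hx (Nat.clog 2 (m + 1)) le_rfl ?_ ?_
  · have h1 : Nat.clog 2 (m + 1) ≤ m - 1 := by
      rw [Nat.clog_le_iff_le_pow (by norm_num)]
      have h2 : ∀ j : ℕ, j + 4 ≤ 2 ^ (j + 2) := by
        intro j
        induction j with
        | zero => norm_num
        | succ j ih =>
          rw [show j + 1 + 2 = (j + 2) + 1 from rfl, pow_succ]
          omega
      obtain ⟨j, rfl⟩ : ∃ j, m = j + 3 := ⟨m - 3, by omega⟩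
      exact h2 j
    omega
  · intro s hs
    exact (Nat.lt_clog_iff_pow_lt (by norm_num)).1 hs

end R175.PSG
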