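import Mathlib
import Pool.Agent.R175.PSG.Many
import Pool.Agent.R175.PSG.Up

/-!
Partial shattering: the count of order `k log k`.
-/

set_option autoImplicit false

namespace R175.PSG

open Finset
open W926.PS (Om Pos Lab lab nrk Before FD PosKey LabKey Blk Crs Coll st0 st1 st2 S_GL S_UNIV)

/-- the count with `clog`, order `k log k` -/
theorem cnt_many (k : ℕ) (hk : 4 ≤ k) :
    Cnt k (Nat.clog 2 k + ((3 * Nat.clog 2 k - 4) / 7) + 1)
      (((3 * Nat.clog 2 k - 4) / 7 + 1) * 2 ^ Nat.clog 2 k) := by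
  classical
  intro r a F hF x hx
  obtain ⟨m, rfl⟩ : ∃ m, k = m + 1 := ⟨k - 1, by omega⟩
  obtain ⟨c, hc⟩ : ∃ c, c = Nat.clog 2 (m + 1) := ⟨_, rfl⟩
  rw [← hc] at hF ⊢
  obtain ⟨s, hs⟩ : ∃ s, s = (3 * c - 4) / 7 := ⟨_, rfl⟩
  rw [← hs] at hF ⊢
  have hlow : ∀ s, s < c → 2 ^ s < m + 1 := by
    intro s hs
    rw [hc] at hs
    exact (Nat.lt_clog_iff_pow_lt (by norm_num)).1 hs
  have hc2 : 2 ≤ c := by
    by_contra h
    have h1 : Nat.clog 2 (m + 1) ≤ 1 := by omega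
    rw [Nat.clog_le_iff_le_pow (by norm_num)] at h1
    omega
  obtain ⟨σ, p, hy⟩ := srt Pool.Agent.W554.PS.gl x hx
  rw [← np_perm F x σ]
  set y : Fin (m + 1) → Om r a := fun i => x (σ i) with hydef
  have hyinj : Function.Injective y := fun i j e => σ.injective (hx e)
  by_contra hlt
  rw [not_le] at hlt
  have h1 := many F hF y p hy hyinj c (by omega) hlow
  have hJ : ((range r).filter (IsColl y p)).card + 1 < s + 1 :=
    lt_of_mul_lt_mul_right (lt_of_le_of_lt h1 hlt) (Nat.zero_le _)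
  have hpow : ∀ v : ℕ, v + 1 ≤ 2 ^ v := fun v => Nat.lt_two_pow_self
  have hL : (univ.image (fun i : Fin m => lab (y i.castSucc) (p i))).card ≤ c + s + 1 := by
    by_contra hL
    have h2 := labn F hF y p hy (c + s + 1) le_rfl (by omega)
    have h3 := h2.trans (nq_le_np F _ y)
    have h4 : (s + 1) * 2 ^ c ≤ 2 ^ (c + s + 1) := by
      calc (s + 1) * 2 ^ c ≤ 2 ^ (s + 1) * 2 ^ c :=
            Nat.mul_le_mul_right _ ((Nat.le_succ _).trans (hpow (s + 1)))
        _ = 2 ^ (c + s + 1) := by rw [← pow_add]; congr 1; omega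
    omega
  have h2 := (labn F hF y p hy _ hL le_rfl).trans (nq_le_np F _ y)
  have h3 := bound y p hy
  have h4 : 2 ^ (univ.image (fun i : Fin m => lab (y i.castSucc) (p i))).card ≤ 2 ^ s * 2 ^ c :=
    h2.trans (hlt.le.trans (Nat.mul_le_mul_right _ (hpow s)))
  have h5 : 41 ^ (((range r).filter (IsColl y p)).card + 1) ≤ 41 ^ s :=
    Nat.pow_le_pow_right (by norm_num) (by omega)
  have h6 : (m + 1) ^ 4 ≤ 41 ^ s * (2 ^ s * 2 ^ c) := h3.trans (Nat.mul_le_mul h5 h4)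
  have h7 : (2 ^ (c - 1)) ^ 4 < (m + 1) ^ 4 :=
    Nat.pow_lt_pow_left (hlow (c - 1) (by omega)) (by norm_num)
  have h8 : 41 ^ s * (2 ^ s * 2 ^ c) ≤ 2 ^ (7 * s + c) := by
    rw [← mul_assoc, ← mul_pow, pow_add, pow_mul]
    exact Nat.mul_le_mul_right _ (Nat.pow_le_pow_left (by norm_num) s)
  rw [← pow_mul] at h7
  have h9 : (c - 1) * 4 < 7 * s + c :=
    (Nat.pow_lt_pow_iff_right (by norm_num : 1 < 2)).1 (h7.trans_le (h6.trans h8))
  omega

end R175.PSG
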