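import Mathlib
import Pool.Agent.R175.PSG.Many
import Pool.Agent.R175.PSG.Up

/-!
Partial shattering: three kinds of patterns.
-/

set_option autoImplicit false

namespace R175.PSG

open Finset
open W926.PS (Om Pos Lab lab nrk Before FD PosKey LabKey Blk Crs Coll st0 st1 st2 S_GL S_UNIV
  nrk_inj nrk_lt_iff FD0_iff exists_FD not_blk_crs)

open Classical in
/-- the number of points is bounded by the numbers of labels and of blocks with collisions -/
theorem bound1 {r a m : ℕ} (y : Fin (m + 1) → Om r a) (p : Fin m → Pos r a) (hS : SrtG y p) :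
    ∃ u : ℕ → ℕ, (m + 1) ≤ (∏ i ∈ range r, if IsColl y p i then 1 + u i else 1) *
      (1 + ∑ i ∈ range r, if IsColl y p i then 0 else u i) ∧
      ∑ i ∈ range r, u i ≤ (univ.image (fun i : Fin m => lab (y i.castSucc) (p i))).card := by
  obtain ⟨lb, hlb⟩ : ∃ lb : Fin m → Lab r a, lb = fun i : Fin m => lab (y i.castSucc) (p i) :=
    ⟨_, rfl⟩
  have hl1 : ∀ i, (lb i).1 = p i := by
    intro i; rw [hlb]; rfl
  obtain ⟨n, hn⟩ : ∃ n : ℕ → ℕ, n = fun j => (univ.filter (fun h : Fin m => ((p h).1 : ℕ) = j)).card :=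
    ⟨_, rfl⟩
  obtain ⟨u, hu⟩ : ∃ u : ℕ → ℕ,
      u = fun j => ((univ.filter (fun h : Fin m => ((p h).1 : ℕ) = j)).image lb).card := ⟨_, rfl⟩
  have hsum : ∀ j, ∑ i ∈ range j, n i = (univ.filter (fun h : Fin m => ((p h).1 : ℕ) < j)).card := by
    intro j
    rw [card_eq_sum_card_fiberwise (s := univ.filter (fun h : Fin m => ((p h).1 : ℕ) < j))
      (f := fun h => ((p h).1 : ℕ)) (t := range j) (by
        intro h hh
        simpa using hh)]
    apply sum_congr rfl
    intro i hi
    rw [hn]
    simp only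
    congr 1
    ext h
    simp only [mem_filter, mem_univ, true_and]
    rw [mem_range] at hi
    constructor
    · intro e; exact ⟨by omega, e⟩
    · intro e; exact e.2
  have h1 : ∀ j, ¬ IsColl y p j → n j ≤ u j := by
    intro j hj
    rw [hn, hu]
    simp only
    rw [card_image_of_injOn]
    intro i hi k hk e
    simp only [coe_filter, mem_univ, true_and, Set.mem_ofPred_eq] at hi hk
    by_contra hne
    apply hj
    rw [hlb] at e
    rcases lt_or_gt_of_ne hne with h | h
    · exact ⟨i, k, h, e, hi⟩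
    · exact ⟨k, i, h, e.symm, hk⟩
  have h2 : ∀ j, n j ≤ u j * (1 + ∑ i ∈ range j, n i) := by
    intro j
    rw [hsum]
    have h3 := card_le_mul_card_image (f := lb) (univ.filter (fun h : Fin m => ((p h).1 : ℕ) = j))
      (1 + (univ.filter (fun h : Fin m => ((p h).1 : ℕ) < j)).card) (by
        intro b hb
        rw [add_comm 1]
        apply card_le_succ
        intro i hi k hk hik
        simp only [mem_filter, mem_univ, true_and] at hi hk
        have e : lb i = lb k := hi.2.trans hk.2.symm
        rw [hlb] at e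
        obtain ⟨h, hh1, hh2, hh3⟩ := between y p hS i k hik e
        refine ⟨h, ?_, hh1, hh2⟩
        simp only [mem_filter, mem_univ, true_and]
        have := hi.1
        rw [Fin.lt_def] at hh3
        omega)
    rw [mul_comm] at h3
    have hnj : n j = (univ.filter (fun h : Fin m => ((p h).1 : ℕ) = j)).card := by rw [hn]
    have huj : u j = ((univ.filter (fun h : Fin m => ((p h).1 : ℕ) = j)).image lb).card := by
      rw [hu]
    rw [hnj, huj]
    exact h3
  have h3 := growth (IsColl y p) n u h1 h2 r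
  have h4 : ∑ i ∈ range r, n i = m := by
    rw [hsum]
    have : (univ.filter (fun h : Fin m => ((p h).1 : ℕ) < r)) = univ := by
      ext h
      simp
    rw [this]
    simp
  have h5 : ∑ i ∈ range r, u i ≤ (univ.image lb).card := by
    rw [hu]
    simp only
    rw [← card_biUnion]
    · apply card_le_card
      intro z hz
      rw [mem_biUnion] at hz
      obtain ⟨j, -, hz⟩ := hz
      rw [mem_image] at hz
      obtain ⟨h, -, rfl⟩ := hz
      exact mem_image_of_mem _ (mem_univ _)
    · intro i _ j _ hij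
      rw [Function.onFun, disjoint_left]
      intro z hz hz'
      rw [mem_image] at hz hz'
      obtain ⟨h, hh, rfl⟩ := hz
      obtain ⟨h', hh', e⟩ := hz'
      simp only [mem_filter, mem_univ, true_and] at hh hh'
      apply hij
      rw [← hh, ← hh', ← hl1 h, ← hl1 h', e]
  rw [h4, add_comm 1 m] at h3
  rw [← hlb]
  exact ⟨u, h3, h5⟩

open Classical in
/-- many blocks with collisions give many patterns -/
theorem many1 {r a T m : ℕ} (F : Finset (Om r a → ℕ)) (hF : RichT T F)
    (y : Fin (m + 1) → Om r a) (p : Fin m → Pos r a) (hy : SrtG y p)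
    (hyinj : Function.Injective y) (t : ℕ) (htT : t ≤ T) (ht : ∀ s, s < t → 2 ^ s < m + 1) (t' : ℕ) (htT' : t' ≤ T)
    (ht' : t' ≤ (univ.image (fun i : Fin m => lab (y i.castSucc) (p i))).card) :
    2 ^ t' + ((range r).filter (IsColl y p)).card * 2 ^ t ≤ np F y := by
  obtain ⟨J, hJ⟩ : ∃ J : Finset (Fin r), J = univ.filter (fun j : Fin r => IsColl y p j) :=
    ⟨_, rfl⟩
  have hJc : J.card = ((range r).filter (IsColl y p)).card := by
    rw [hJ]
    have : (range r).filter (IsColl y p) =
        (univ.filter (fun j : Fin r => IsColl y p j)).map Fin.valEmbedding := by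
      ext j
      simp only [mem_filter, mem_range, mem_map, mem_univ, true_and, Fin.valEmbedding_apply]
      constructor
      · rintro ⟨h1, h2⟩
        exact ⟨⟨j, h1⟩, h2, rfl⟩
      · rintro ⟨j', h1, rfl⟩
        exact ⟨j'.2, h1⟩
    rw [this, card_map]
  rw [← hJc]
  have hcoll : ∀ j ∈ J, ∃ i k : Fin m,
      Coll (y i.castSucc) (y i.succ) (y k.castSucc) (y k.succ) j (p i).2 := by
    intro j hj
    rw [hJ, mem_filter] at hj
    obtain ⟨-, i, k, hik, e, hi⟩ := hj
    have hc := col y p hy i k hik e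
    have : (p i).1 = j := Fin.ext hi
    rw [this] at hc
    exact ⟨i, k, hc⟩
  have h8 : ∀ j ∈ J, 2 ^ t ≤ nq F (fun key => ∃ φ, PosKey (st1 j) φ key) y :=
    fun j _ => eight F (st1 j) (hF.first1 _) y hyinj t htT ht
  have h8' := labn F hF y p hy t' htT' ht'
  have hex : ∀ i ∈ J, ∀ j ∈ J, i < j → ∀ k1 ∈ F, ∀ k2 ∈ F, ipat y k1 = ipat y k2 →
      (∃ φ, PosKey (st1 i) φ k1) → (∃ φ, PosKey (st1 j) φ k2) → False := by
    rintro i hi j hj hij k1 hk1 k2 hk2 e' ⟨φ, h1⟩ ⟨φ', h2⟩
    obtain ⟨i', k', hc⟩ := hcoll j hj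
    have t1 := (W435.PS.typ r a _ _ _ _ _ _ hc k1).2.2.1 i φ hij h1
    have t2 := (W435.PS.typ r a _ _ _ _ _ _ hc k2).2.1 φ' h2
    exact excl hF hc hk1 e' t1 t2
  have hadd := nq_sum F J (fun key => ∃ φ, LabKey φ key)
    (fun j key => ∃ φ, PosKey (st1 j) φ key) y (by
      rintro j hj k1 hk1 k2 hk2 e' ⟨φ, h1⟩ ⟨φ', h2⟩
      obtain ⟨i', k', hc⟩ := hcoll j hj
      have t1 := (W435.PS.typ r a _ _ _ _ _ _ hc k1).1 φ h1
      have t2 := (W435.PS.typ r a _ _ _ _ _ _ hc k2).2.1 φ' h2
      exact excl hF hc hk1 e' t1 t2)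
    (by
      intro i hi j hj hij k1 hk1 k2 hk2 e' h1 h2
      rcases lt_or_gt_of_ne hij with h | h
      · exact hex i hi j hj h k1 hk1 k2 hk2 e' h1 h2
      · exact hex j hj i hi h k2 hk2 k1 hk1 e'.symm h2 h1)
  have hsum : J.card * 2 ^ t ≤ ∑ j ∈ J, nq F (fun key => ∃ φ, PosKey (st1 j) φ key) y := by
    rw [← smul_eq_mul]
    exact card_nsmul_le_sum J _ _ h8
  omega


lemma sq_growth (v : ℕ) : (v + 5 + 2) ^ 2 < 2 * 2 ^ (v + 5) := by
  induction v with
  | zero => norm_num
  | succ v ih =>
    have e : 2 * (v + 5 + 2) ^ 2 = (v + 1 + 5 + 2) ^ 2 + (v ^ 2 + 12 * v + 34) := by ring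
    have h1 : (v + 1 + 5 + 2) ^ 2 ≤ 2 * (v + 5 + 2) ^ 2 := by omega
    have h2 : 2 * 2 ^ (v + 1 + 5) = 2 * (2 * 2 ^ (v + 5)) := by ring
    rw [h2]
    omega

/-- three kinds of patterns -/
theorem cnt_three (k : ℕ) (hk : 7 ≤ k) (hk9 : k ≠ 9) :
    Cnt k (Nat.clog 2 k + 2) (3 * 2 ^ Nat.clog 2 k) := by
  classical
  intro r a F hF x hx
  obtain ⟨m, rfl⟩ : ∃ m, k = m + 1 := ⟨k - 1, by omega⟩
  obtain ⟨c, hc⟩ : ∃ c, c = Nat.clog 2 (m + 1) := ⟨_, rfl⟩
  rw [← hc] at hF ⊢
  have hlow : ∀ s, s < c → 2 ^ s < m + 1 := by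
    intro s hs
    rw [hc] at hs
    exact (Nat.lt_clog_iff_pow_lt (by norm_num)).1 hs
  have hc3 : 3 ≤ c := by
    by_contra h
    have h1 : Nat.clog 2 (m + 1) ≤ 2 := by omega
    rw [Nat.clog_le_iff_le_pow (by norm_num)] at h1
    omega
  -- `4 k > (c + 2) ^ 2`
  have hbig : (c + 2) ^ 2 < 4 * (m + 1) := by
    have h1 := hlow (c - 1) (by omega)
    rcases Nat.lt_or_ge c 5 with h | h
    · have h2 : c = 3 ∨ c = 4 := by omega
      rcases h2 with rfl | rfl
      · omega
      · norm_num at h1 ⊢
        omega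
    · obtain ⟨v, rfl⟩ : ∃ v, c = v + 5 := ⟨c - 5, by omega⟩
      have h2 := sq_growth v
      have h3 : 2 * 2 ^ (v + 5) = 4 * 2 ^ (v + 5 - 1) := by
        rw [show v + 5 = (v + 5 - 1) + 1 by omega, pow_succ]
        simp only [Nat.add_sub_cancel]
        ring
      omega
  -- `m > c + 1`
  have hmc : c + 1 < m := by
    have : c + 2 < m + 1 := by nlinarith
    omega
  obtain ⟨σ, p, hy⟩ := srt Pool.Agent.W554.PS.gl x hx
  rw [← np_perm F x σ]
  set y : Fin (m + 1) → Om r a := fun i => x (σ i) with hydef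
  have hyinj : Function.Injective y := fun i j e => σ.injective (hx e)
  obtain ⟨L, hL⟩ : ∃ L, L = (univ.image (fun i : Fin m => lab (y i.castSucc) (p i))).card :=
    ⟨_, rfl⟩
  rcases Nat.lt_or_ge L (c + 2) with h | h
  · rcases Nat.lt_or_ge L (c + 1) with h' | h'
    · -- two blocks with collisions
      have h1 := many F hF y p hy hyinj c (by omega) hlow
      have h2 : 2 ≤ ((range r).filter (IsColl y p)).card := by
        by_contra h3
        obtain ⟨u, hu1, hu2⟩ := bound1 y p hy
        rw [← hL] at hu2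
        have h4 : (∏ i ∈ range r, if IsColl y p i then 1 + u i else 1) ≤
            1 + ∑ i ∈ range r, if IsColl y p i then u i else 0 := by
          rw [← prod_filter, ← sum_filter]
          rcases ((range r).filter (IsColl y p)).eq_empty_or_nonempty with h5 | h5
          · rw [h5]; simp
          · have h6 : ((range r).filter (IsColl y p)).card = 1 := by
              have := card_pos.2 h5
              omega
            obtain ⟨j, hj⟩ := card_eq_one.1 h6
            rw [hj]; simp
        have h5 : ∑ i ∈ range r, u i = (∑ i ∈ range r, if IsColl y p i then u i else 0) +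
            ∑ i ∈ range r, if IsColl y p i then 0 else u i := by
          rw [← sum_add_distrib]
          apply sum_congr rfl
          intro i _
          split_ifs <;> simp
        generalize (∑ i ∈ range r, if IsColl y p i then u i else 0) = A at *
        generalize (∑ i ∈ range r, if IsColl y p i then 0 else u i) = B at *
        generalize (∏ i ∈ range r, if IsColl y p i then 1 + u i else 1) = W at *
        have h6 : m + 1 ≤ (1 + A) * (1 + B) := hu1.trans (Nat.mul_le_mul_right _ h4)
        have h7 : A + B ≤ c := by omega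
        have h8 : 4 * ((1 + A) * (1 + B)) ≤ (2 + A + B) ^ 2 := by
          zify
          nlinarith [sq_nonneg ((A : ℤ) - B)]
        have h9 : (2 + A + B) ^ 2 ≤ (c + 2) ^ 2 := Nat.pow_le_pow_left (by omega) 2
        omega
      calc 3 * 2 ^ c ≤ (((range r).filter (IsColl y p)).card + 1) * 2 ^ c :=
            Nat.mul_le_mul_right _ (by omega)
        _ ≤ np F y := h1
    · -- one collision
      have h1 := many1 F hF y p hy hyinj c (by omega) hlow (c + 1) (by omega) (by omega)
      have h2 : 1 ≤ ((range r).filter (IsColl y p)).card := by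
        have hni : ¬ Function.Injective (fun i : Fin m => lab (y i.castSucc) (p i)) := by
          intro hi
          have := Finset.card_image_of_injective (univ : Finset (Fin m)) hi
          simp only [Finset.card_univ, Fintype.card_fin] at this
          omega
        obtain ⟨i, k, hik, e⟩ : ∃ i k : Fin m, i < k ∧
            lab (y i.castSucc) (p i) = lab (y k.castSucc) (p k) := by
          unfold Function.Injective at hni
          push Not at hni
          obtain ⟨i, k, e, hne⟩ := hni
          rcases lt_or_gt_of_ne hne with h | h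
          · exact ⟨i, k, h, e⟩
          · exact ⟨k, i, h, e.symm⟩
        exact card_pos.2 ⟨((p i).1 : ℕ), mem_filter.2 ⟨mem_range.2 (p i).1.2, i, k, hik, e, rfl⟩⟩
      have h3 : 1 * 2 ^ c ≤ ((range r).filter (IsColl y p)).card * 2 ^ c :=
        Nat.mul_le_mul_right _ h2
      have h4 : 2 ^ (c + 1) = 2 * 2 ^ c := by ring
      omega
  · have h1 := (labn F hF y p hy (c + 2) le_rfl (by omega)).trans (nq_le_np F _ y)
    have h4 : 2 ^ (c + 2) = 4 * 2 ^ c := by ring
    omega

end R175.PSG
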